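import Mathlib
import Pool.Agent.Helper97.IntKDefs
import Pool.Agent.Helper97.ADDBFinal

namespace Pool.Agent.Results.MP_6e749b_al.IntClosedPrufer

open Pool.Agent.Helper97.IntKDefs

/-- For an ADDB-domain `D` with quotient field `K` and a `D`-algebra `A` which is finitely
generated as a `D`-module: if `Int_K(A)` is integrally closed then it is a Prüfer domain. -/
theorem result (D K A : Type*) [CommRing D] [IsDomain D] [Field K] [Algebra D K]
    [IsFractionRing D K] [Ring A] [Algebra D A] [Module.Finite D A] (hD : IsADDB D)
    (hIC : IsIntegrallyClosed (IntK D K A)) : IsPruferDomain (IntK D K A) :=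
  Pool.Agent.Helper97.ADDBFinal.main D K A hD hIC

end Pool.Agent.Results.MP_6e749b_al.IntClosedPrufer
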